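import Pool.Agent.R267.SimRenorm

set_option autoImplicit false

open Filter Topology
open scoped ENNReal

namespace Pool.Agent.Results.MP_47003a_an.NoSimultaneousRenorming

section defs

variable {𝕜 : Type} [RCLike 𝕜] {B : Type} [NormedAddCommGroup B] [NormedSpace 𝕜 B]

/-- the series `∑ αᵢ xᵢ` converges to `y` -/
def Expands (x : ℕ → B) (α : ℕ → 𝕜) (y : B) : Prop :=
  Tendsto (fun m => ∑ i ∈ Finset.range m, α i • x i) atTop (𝓝 y)

variable (𝕜) in
/-- Schauder basis -/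
def IsSchauderBasis (x : ℕ → B) : Prop := ∀ y : B, ∃! α : ℕ → 𝕜, Expands x α y

/-- `N` is an equivalent norm on `B` -/
def EquivalentNorm (N : Seminorm 𝕜 B) : Prop :=
  ∃ c C : ℝ, 0 < c ∧ ∀ y : B, c * ‖y‖ ≤ N y ∧ N y ≤ C * ‖y‖

/-- the basis `x` is monotone with respect to `N` -/
def MonotoneBasis (N : Seminorm 𝕜 B) (x : ℕ → B) : Prop :=
  ∀ (y : B) (α : ℕ → 𝕜), Expands x α y → ∀ n, N (∑ i ∈ Finset.range n, α i • x i) ≤ N y

/-- `p` is a linear projection of `B` onto `E` -/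
def ProjectsOnto (p : B →ₗ[𝕜] B) (E : Submodule 𝕜 B) : Prop :=
  (∀ y, p y ∈ E) ∧ ∀ y ∈ E, p y = y

end defs

open Pool.Agent.R267.SR

/-- For both scalar fields there are a Banach space `B` with a Schauder basis and a complemented
closed subspace `E` such that for no equivalent norm the basis is monotone and there is a linear
projection onto `E` of norm at most `1`. -/
theorem result : ∀ (𝕜 : Type) [RCLike 𝕜],
    ∃ (B : Type) (_ : NormedAddCommGroup B) (_ : NormedSpace 𝕜 B) (_ : CompleteSpace B)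
      (x : ℕ → B) (E : Submodule 𝕜 B), IsSchauderBasis 𝕜 x ∧ IsClosed (E : Set B) ∧
      (∃ p : B →ₗ[𝕜] B, Continuous p ∧ ProjectsOnto p E) ∧
      ∀ N : Seminorm 𝕜 B, EquivalentNorm N →
        ¬ (MonotoneBasis N x ∧ ∃ p : B →ₗ[𝕜] B, ProjectsOnto p E ∧ ∀ y, N (p y) ≤ N y) := by
  intro 𝕜 _
  refine ⟨BB 𝕜, inferInstance, inferInstance, inferInstance, xx,
    LinearMap.ker (LinearMap.snd 𝕜 (L1 𝕜) (L2 𝕜)), ?_, ?_, ?_, ?_⟩
  · intro y
    refine ⟨fun n => fn n y, expansion y, ?_⟩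
    intro β hβ
    funext n
    exact coeff_eq xx fn fn_xx β y hβ n
  · exact (isClosed_singleton (x := (0 : L2 𝕜))).preimage
      (continuous_snd : Continuous (fun y : BB 𝕜 => y.2))
  · refine ⟨(LinearMap.inl 𝕜 (L1 𝕜) (L2 𝕜)).comp (LinearMap.fst 𝕜 (L1 𝕜) (L2 𝕜)), ?_, ?_, ?_⟩
    · exact (continuous_fst.prodMk continuous_const :
        Continuous (fun y : BB 𝕜 => ((y.1, 0) : BB 𝕜)))
    · intro y
      rw [LinearMap.mem_ker]
      rfl
    · intro y hy
      rw [LinearMap.mem_ker] at hy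
      change ((y.1, 0) : BB 𝕜) = y
      exact Prod.ext rfl hy.symm
  · rintro N ⟨c, C, hc, hN⟩ ⟨hm, p, ⟨hp1, hp2⟩, hp3⟩
    refine contra N c C hc hN (fun y n => hm y _ (expansion y) n) p (fun y => ?_)
      (fun y hy => ?_) hp3
    · have := hp1 y
      rwa [LinearMap.mem_ker] at this
    · exact hp2 y (LinearMap.mem_ker.mpr hy)

end Pool.Agent.Results.MP_47003a_an.NoSimultaneousRenorming
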